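import Mathlib
import Pool.Agent.H6.Asd

namespace Pool.Agent.Results.MP_fb382b_nt.Counter

open PowerSeries

/-- The `q`-expansion of the Eisenstein series `E_k`. -/
noncomputable def Eis (k : ℕ) : PowerSeries ℚ :=
  PowerSeries.mk fun n =>
    if n = 0 then 1 else -(2 * k / bernoulli k) * (ArithmeticFunction.sigma (k - 1) n : ℚ)

/-- The `q`-expansion of the discriminant `Δ = (E_4^3 - E_6^2) / 1728`. -/
noncomputable def Disc : PowerSeries ℚ := C (1 / 1728) * (Eis 4 ^ 3 - Eis 6 ^ 2)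

/-- The `q`-expansion of `E_k / (j - j₀)^r`, using `1 / (j - j₀) = Δ / (E_4^3 - j₀ Δ)`. -/
noncomputable def Form (k r : ℕ) (j₀ : ℚ) : PowerSeries ℚ :=
  Eis k * (Disc * (Eis 4 ^ 3 - C j₀ * Disc)⁻¹) ^ r

/-- The coefficient `a_m`, which is `0` when `m` is not an integer. -/
noncomputable def coef (f : PowerSeries ℚ) (m : ℚ) : ℚ :=
  if m.den = 1 then coeff m.num.toNat f else 0

/-- The `j`-invariant of an integral Weierstrass model. -/
def jInv (W : WeierstrassCurve ℤ) : ℚ := (W.c₄ : ℚ) ^ 3 / W.Δ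

/-- The trace of Frobenius `a_p = p + 1 - #C(F_p)`. -/
noncomputable def ap (W : WeierstrassCurve ℤ) (p : ℕ) : ℤ :=
  p + 1 - Nat.card (W.map (Int.castRingHom (ZMod p))).toAffine.Point

/-- `c` is the coefficient sequence of the characteristic polynomial `P_p` on `Sym^{k-2}`. -/
def IsChar (a : ℤ) (p k : ℕ) (c : ℕ → ℤ) : Prop :=
  ∃ α β : ℂ, α + β = a ∧ α * β = p ∧ ∀ x : ℂ,
    ∏ i ∈ Finset.range (k - 1), (x - α ^ (k - 2 - i) * β ^ i) =
      ∑ i ∈ Finset.range k, c i * x ^ (k - 1 - i)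

/-- The congruence of Q1 for the given data. -/
def Congr (k r : ℕ) (j₀ : ℚ) (p : ℕ) (c : ℕ → ℤ) (n l : ℕ) : Prop :=
  ∀ x : ℚ, x = ∑ i ∈ Finset.range k, c i * coef (Form k r j₀) (n * (p : ℚ) ^ ((l : ℤ) - i)) →
    x = 0 ∨ ((k : ℤ) - 1) * l - (k - 3) * k / 2 - r ≤ padicValRat p x

lemma b4 : bernoulli 4 = -1 / 30 := by
  rw [bernoulli_eq_bernoulli'_of_ne_one (by norm_num), bernoulli'_four]

lemma b6 : bernoulli 6 = 1 / 42 := by
  have h5 : bernoulli' 5 = 0 := bernoulli'_eq_zero_of_odd (by decide) (by norm_num)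
  rw [bernoulli_eq_bernoulli'_of_ne_one (by norm_num), bernoulli'_def]
  norm_num [Finset.sum_range_succ, h5, Nat.choose]

lemma e4 : Eis 4 = Pool.Agent.H6.Asd.eis ℚ 240 3 := by
  ext n
  simp only [Eis, Pool.Agent.H6.Asd.eis, coeff_mk, b4]
  split_ifs <;> norm_num

lemma e6 : Eis 6 = Pool.Agent.H6.Asd.eis ℚ (-504) 5 := by
  ext n
  simp only [Eis, Pool.Agent.H6.Asd.eis, coeff_mk, b6]
  split_ifs <;> norm_num

lemma eqn : Pool.Agent.H6.Asd.Eqn (Form 6 1 (110592 / 37)) := by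
  have c := Pool.Agent.H6.Asd.const ℚ
  rw [Pool.Agent.H6.Asd.Eqn]
  rw [← e4, ← e6] at c ⊢
  have h1 : (1728 : PowerSeries ℚ) * C (1 / 1728) = 1 := by
    rw [← map_ofNat (C (R := ℚ)), ← map_mul]; norm_num
  have h2 : (37 : PowerSeries ℚ) * C (110592 / 37) = 110592 := by
    rw [← map_ofNat (C (R := ℚ)), ← map_mul, ← map_ofNat (C (R := ℚ))]; norm_num
  have h3 : 63936 * (Eis 4 ^ 3 - C (110592 / 37) * Disc) =
      1728 * (64 * Eis 6 ^ 2 - 27 * Eis 4 ^ 3) := by
    rw [Disc]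
    linear_combination (-(1728 * C (1 / 1728 : ℚ)) * (Eis 4 ^ 3 - Eis 6 ^ 2)) * h2 -
      110592 * (Eis 4 ^ 3 - Eis 6 ^ 2) * h1
  have h4 := PowerSeries.inv_mul_cancel (Eis 4 ^ 3 - C (110592 / 37) * Disc) fun e => by
    rw [← h3, map_mul, e] at c; norm_num at c
  rw [← h3, Form, pow_one]
  generalize Eis 4 ^ 3 - C (110592 / 37) * Disc = A at *
  rw [Disc]
  linear_combination (63936 * Eis 6 * (C (1 / 1728 : ℚ) * (Eis 4 ^ 3 - Eis 6 ^ 2))) * h4 +
    37 * Eis 6 * (Eis 4 ^ 3 - Eis 6 ^ 2) * h1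

theorem result : ¬ ∀ k ∈ ({4, 6, 8, 10, 14} : Set ℕ), ∀ r, 1 ≤ r → r ≤ k - 1 →
    ∀ (W : WeierstrassCurve ℤ) (p : ℕ), p.Prime → 5 ≤ p → ¬ (p : ℤ) ∣ W.Δ → jInv W ≠ 0 →
      jInv W ≠ 1728 → padicValRat p (jInv W) = 0 → padicValRat p (jInv W - 1728) = 0 →
      ∀ c, IsChar (ap W p) p k c → ∀ n l, 1 ≤ n → 1 ≤ l → Congr k r (jInv W) p c n l := by
  intro h
  have : Fact (Nat.Prime 5) := ⟨by norm_num⟩
  have d : (⟨0, 0, 1, -1, 0⟩ : WeierstrassCurve ℤ).Δ = 37 := by decide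
  have j : jInv ⟨0, 0, 1, -1, 0⟩ = 110592 / 37 := by
    have : (⟨0, 0, 1, -1, 0⟩ : WeierstrassCurve ℤ).c₄ = 48 := by decide
    rw [jInv, d, this]; norm_num
  have a : ap ⟨0, 0, 1, -1, 0⟩ 5 = -2 := by
    rw [ap, Nat.card_congr (WeierstrassCurve.Affine.nonsingularPointEquiv _)]
    simp only [WeierstrassCurve.Affine.nonsingular_iff, WeierstrassCurve.Affine.equation_iff,
      WithZero, Nat.card_eq_fintype_card]
    decide +kernel
  have v : ∀ a b : ℕ, ¬ 5 ∣ a → ¬ 5 ∣ b → padicValRat 5 ((a : ℚ) / b) = 0 := fun a b x y => by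
    rw [padicValRat.div (by rintro e; simp_all) (by rintro e; simp_all)]
    simp [padicValNat.eq_zero_of_not_dvd x, padicValNat.eq_zero_of_not_dvd y]
  have := h 6 (by simp) 1 le_rfl (by norm_num) ⟨0, 0, 1, -1, 0⟩ 5 (by norm_num) le_rfl
    (by rw [d]; decide) (by rw [j]; norm_num) (by rw [j]; norm_num)
    (by rw [j]; exact_mod_cast v 110592 37 (by norm_num) (by norm_num))
    (by
      rw [j, show (110592 / 37 - 1728 : ℚ) = (46656 : ℕ) / (37 : ℕ) by norm_num]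
      exact v _ _ (by norm_num) (by norm_num))
    (fun i => [1, 19, 570, -14250, -296875, -9765625].getD i 0)
    ⟨-1 + 2 * Complex.I, -1 - 2 * Complex.I, by rw [a]; push_cast; ring,
      by push_cast; linear_combination -4 * Complex.I_sq, fun x => by
        have r : ∀ i j : ℕ, ∀ u w : ℤ, (⟨-1, 2⟩ ^ i * ⟨-1, -2⟩ ^ j : GaussianInt) = ⟨u, w⟩ →
            (-1 + 2 * Complex.I) ^ i * (-1 - 2 * Complex.I) ^ j = u + w * Complex.I := by
          intro i j u w e
          have := congrArg GaussianInt.toComplex e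
          simpa [GaussianInt.toComplex_def', sub_eq_add_neg] using this
        simp only [Finset.prod_range_succ, Finset.sum_range_succ, Finset.range_zero,
          Finset.prod_empty, Finset.sum_empty, Nat.reduceSub]
        rw [r 4 0 (-7) 24 (by decide), r 3 1 (-15) (-20) (by decide), r 2 2 25 0 (by decide),
          r 1 3 (-15) 20 (by decide), r 0 4 (-7) (-24) (by decide)]
        simp only [List.getD_cons_zero, List.getD_cons_succ]
        push_cast
        linear_combination (x - 25) * (-400 * (x + 7) ^ 2 - 576 * (x + 15) ^ 2 +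
          230400 * (Complex.I ^ 2 - 1)) * Complex.I_sq⟩ 1 5 le_rfl (by norm_num) _ rfl
  rw [j] at this
  refine Pool.Agent.H6.Asd.main eqn ?_ this
  simp only [Finset.sum_range_succ, Finset.range_zero, Finset.sum_empty, List.getD_cons_zero,
    List.getD_cons_succ]
  norm_num [coef]
  simp only [Int.reduceToNat]
  ring

end Pool.Agent.Results.MP_fb382b_nt.Counter
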